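import Pool.Agent.Q145.HC.Stm

set_option autoImplicit false

/-! # HC job HYBL: mean squares of the character sums of the Liouville function in short windows

Adapted from the module Q151 SZ Hyb of helper151. -/

open Complex Filter Topology Set MeasureTheory Metric
open scoped Real FourierTransform

namespace Pool.Agent.Q238.HC

open Pool.Agent.W66 Pool.Agent.W66L Pool.Agent.Q145.SZ Pool.Agent.Q145.HC

lemma prim_ne_one {f : ℕ} [NeZero f] (hf : 1 < f) {χ : DirichletCharacter ℂ f} (h : χ.IsPrimitive) : χ ≠ 1 := by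
  rintro rfl
  rw [DirichletCharacter.isPrimitive_def, DirichletCharacter.conductor_one] at h
  omega

lemma mem_prim {f : ℕ} {χ : DirichletCharacter ℂ f} : χ ∈ prim f ↔ χ.IsPrimitive := by
  classical
  unfold prim
  rw [Finset.mem_filter]
  exact ⟨fun h => h.2, fun h => ⟨Finset.mem_univ _, h⟩⟩

lemma card_prim (f : ℕ) [NeZero f] : ((prim f).card : ℝ) ≤ Nat.totient f := by
  classical
  have h2 : (prim f).card ≤ Fintype.card (DirichletCharacter ℂ f) := Finset.card_le_univ _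
  have h3 : Fintype.card (DirichletCharacter ℂ f) = Nat.totient f := by
    rw [← Nat.card_eq_fintype_card,
      DirichletCharacter.card_eq_totient_of_hasEnoughRootsOfUnity ℂ f]
  rw [h3] at h2
  exact_mod_cast h2

lemma weight_one {F : ℕ} {f : ℕ} (hf : f ∈ Finset.Icc 1 F) :
    ((f : ℝ) / Nat.totient f) * ((prim f).card : ℝ) ≤ f := by
  rw [Finset.mem_Icc] at hf
  have : NeZero f := ⟨by omega⟩
  have h2 : (0 : ℝ) < Nat.totient f := by exact_mod_cast Nat.totient_pos.2 (by omega)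
  calc _ ≤ ((f : ℝ) / Nat.totient f) * (Nat.totient f : ℝ) :=
        mul_le_mul_of_nonneg_left (card_prim f) (by positivity)
    _ = f := by field_simp

/-- the weighted number of primitive characters of conductor `≤ F` -/
lemma weight_sum (F : ℕ) : ∑ f ∈ Finset.Icc 1 F, ((f : ℝ) / Nat.totient f) * ((prim f).card : ℝ) ≤ (F : ℝ) ^ 2 := by
  have h1 : ∀ f ∈ Finset.Icc 1 F, ((f : ℝ) / Nat.totient f) * ((prim f).card : ℝ) ≤ F := by
    intro f hf
    refine (weight_one hf).trans ?_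
    exact_mod_cast (Finset.mem_Icc.1 hf).2
  refine (Finset.sum_le_sum h1).trans ?_
  rw [Finset.sum_const, Nat.card_Icc, nsmul_eq_mul]
  have h3 : ((F + 1 - 1 : ℕ) : ℝ) = F := by simp
  rw [h3, sq]

lemma TG_le (a : ℕ → ℂ) {h z : ℝ} (hh : 0 < h) {N N' : ℕ}
    (hN : Real.exp (z + h) ≤ N) (hNN : N ≤ N') : TG a h N' z = TG a h N z := by
  unfold TG
  symm
  apply Finset.sum_subset (Finset.Ioc_subset_Ioc_right hNN)
  intro n hn hn2
  rw [Finset.mem_Ioc] at hn hn2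
  have h1 : N < n := by omega
  have h2 : z + h ≤ Real.log n := by
    rw [Real.le_log_iff_exp_le (by exact_mod_cast hn.1)]
    refine hN.trans ?_
    exact_mod_cast h1.le
  unfold triC
  rw [tri_zero_of hh, Complex.ofReal_zero, mul_zero]
  rw [abs_of_nonpos (by linarith)]
  linarith

lemma TG_indep (a : ℕ → ℂ) {h z : ℝ} (hh : 0 < h) {N N' : ℕ}
    (hN : Real.exp (z + h) ≤ N) (hN' : Real.exp (z + h) ≤ N') : TG a h N' z = TG a h N z := by
  rcases le_total N N' with h1 | h1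
  · exact TG_le a hh hN h1
  · exact (TG_le a hh hN' h1).symm

lemma TG_continuous (a : ℕ → ℂ) (h : ℝ) (N : ℕ) : Continuous (TG a h N) := by
  unfold TG
  apply continuous_finsetSum
  intro n _
  exact continuous_const.mul ((triC_continuous h).comp (by fun_prop))

/-- the bound for one sequence -/
lemma one_char (hDSP : S_DSP) (a : ℕ → ℂ) (c : ℕ → ℂ) {Z h E M : ℝ} {u0 U N' N : ℕ}
    (hZ20 : 20 ≤ Z) (hh0 : 0 < h) (hh1 : h ≤ 1) (hU1 : Z + 2 ≤ U) (hU2 : (U : ℝ) ≤ Z + 3)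
    (hu01 : 1 ≤ u0) (hN'1 : Real.exp ((U : ℝ) + 1) ≤ N') (hN : Real.exp (Z + 2) ≤ N) (hM0 : 0 ≤ M)
    (hM : ∀ u : ℕ, u0 ≤ u → u ≤ U → ∀ ξ : ℝ, ‖PG a (u : ℝ) (2 * π * ξ)‖ * ‖𝓕 (boxC h) ξ‖ ≤ M)
    (hpt : ∀ z, Z ≤ z → z ≤ Z + 1 → ‖TG a h N' z - ∑ u ∈ Finset.Icc u0 U,
      FG a u h N' (Finset.Ioc 0 N') c z‖ ≤ E) :
    ∫ z in Z..(Z + 1), ‖TG a h N z‖ ^ 2 ≤ 2 * E ^ 2 +
      2 * ((2 * Z) ^ 2 * (M ^ 2 * ∫ x, ‖bbC h (Finset.Ioc 0 N') c x‖ ^ 2)) := by
  have hZ0 : 0 < Z := by linarith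
  set G : ℝ → ℂ := fun z => ∑ u ∈ Finset.Icc u0 U,
    FG a u h N' (Finset.Ioc 0 N') c z with hG
  have hpt' : ∀ z, Z ≤ z → z ≤ Z + 1 → ‖TG a h N z - G z‖ ≤ E := by
    intro z hz1 hz2
    have hzN : Real.exp (z + h) ≤ N := le_trans (Real.exp_le_exp.2 (by linarith)) hN
    have hzN' : Real.exp (z + h) ≤ N' := le_trans (Real.exp_le_exp.2 (by linarith)) hN'1
    rw [TG_indep a hh0 hzN' hzN]
    exact hpt z hz1 hz2
  have hDu : ∀ u ∈ Finset.Icc u0 U, Continuous (FG a u h N' (Finset.Ioc 0 N') c) ∧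
      Integrable (fun x => ‖FG a u h N' (Finset.Ioc 0 N') c x‖ ^ 2) ∧
      ∫ x, ‖FG a u h N' (Finset.Ioc 0 N') c x‖ ^ 2 ≤
        M ^ 2 * ∫ x, ‖bbC h (Finset.Ioc 0 N') c x‖ ^ 2 := by
    intro u hu
    rw [Finset.mem_Icc] at hu
    have hu2 : (u : ℝ) ≤ U := by exact_mod_cast hu.2
    obtain ⟨d1, d2, d3⟩ := hDSP a u h N' (Finset.Ioc 0 N') c hh0 (by
      refine le_trans (Real.exp_le_exp.2 ?_) hN'1
      linarith)
    exact ⟨d1, d2, d3 M hM0 (hM u hu.1 hu.2)⟩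
  have hGc : Continuous G := by
    apply continuous_finsetSum
    intro u hu
    exact (hDu u hu).1
  have hdom : Integrable fun z => ((Finset.Icc u0 U).card : ℝ) * ∑ u ∈ Finset.Icc u0 U,
        ‖FG a u h N' (Finset.Ioc 0 N') c z‖ ^ 2 :=
      (integrable_finsetSum _ fun (u : ℕ) hu => (hDu u hu).2.1).const_mul _
  have hGint : Integrable fun z => ‖G z‖ ^ 2 := by
    refine hdom.mono' (hGc.norm.pow 2).aestronglyMeasurable (Eventually.of_forall fun z => ?_)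
    rw [Real.norm_of_nonneg (by positivity)]
    exact norm_sum_sq_le _ _
  have hJ0 : 0 ≤ ∫ x, ‖bbC h (Finset.Ioc 0 N') c x‖ ^ 2 := integral_nonneg fun x => by positivity
  have hGsq : ∫ z, ‖G z‖ ^ 2 ≤ (2 * Z) ^ 2 * (M ^ 2 * ∫ x, ‖bbC h (Finset.Ioc 0 N') c x‖ ^ 2) := by
    have h2 : ∫ z, ‖G z‖ ^ 2 ≤ ∫ z, ((Finset.Icc u0 U).card : ℝ) * ∑ u ∈ Finset.Icc u0 U,
        ‖FG a u h N' (Finset.Ioc 0 N') c z‖ ^ 2 := by
      apply integral_mono hGint hdom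
      intro z
      exact norm_sum_sq_le _ _
    refine h2.trans ?_
    rw [integral_const_mul, integral_finsetSum _ fun (u : ℕ) hu => (hDu u hu).2.1]
    have h3 : ((Finset.Icc u0 U).card : ℝ) ≤ 2 * Z := by
      rw [Nat.card_Icc]
      have h4 : ((U + 1 - u0 : ℕ) : ℝ) ≤ ((U : ℕ) : ℝ) := by
        exact_mod_cast (by omega : U + 1 - u0 ≤ U)
      linarith
    have h4 : ∑ u ∈ Finset.Icc u0 U, ∫ z, ‖FG a u h N' (Finset.Ioc 0 N') c z‖ ^ 2 ≤
        ((Finset.Icc u0 U).card : ℝ) * (M ^ 2 * ∫ x, ‖bbC h (Finset.Ioc 0 N') c x‖ ^ 2) := by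
      rw [← nsmul_eq_mul, ← Finset.sum_const]
      apply Finset.sum_le_sum
      intro u hu
      exact (hDu u hu).2.2
    have h5 : 0 ≤ M ^ 2 * ∫ x, ‖bbC h (Finset.Ioc 0 N') c x‖ ^ 2 := mul_nonneg (by positivity) hJ0
    have h6 : (0 : ℝ) ≤ ((Finset.Icc u0 U).card : ℝ) := Nat.cast_nonneg _
    calc _ ≤ ((Finset.Icc u0 U).card : ℝ) * (((Finset.Icc u0 U).card : ℝ) *
          (M ^ 2 * ∫ x, ‖bbC h (Finset.Ioc 0 N') c x‖ ^ 2)) := mul_le_mul_of_nonneg_left h4 h6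
      _ ≤ (2 * Z) * ((2 * Z) * (M ^ 2 * ∫ x, ‖bbC h (Finset.Ioc 0 N') c x‖ ^ 2)) := by
          apply mul_le_mul h3 _ (mul_nonneg h6 h5) (by positivity)
          exact mul_le_mul_of_nonneg_right h3 h5
      _ = _ := by ring
  have hTc := TG_continuous a h N
  have h1 : ∫ z in Z..(Z + 1), ‖TG a h N z‖ ^ 2 ≤
      ∫ z in Z..(Z + 1), (2 * E ^ 2 + 2 * ‖G z‖ ^ 2) := by
    apply intervalIntegral.integral_mono_on (by linarith)
    · exact (hTc.norm.pow 2).intervalIntegrable _ _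
    · exact (intervalIntegrable_const).add ((hGint.const_mul 2).intervalIntegrable)
    · intro z hz
      have h2 := hpt' z hz.1 hz.2
      have h3 : ‖TG a h N z‖ ≤ E + ‖G z‖ := by
        have : TG a h N z = (TG a h N z - G z) + G z := by ring
        rw [this]
        exact (norm_add_le _ _).trans (add_le_add h2 le_rfl)
      have h4 : ‖TG a h N z‖ ^ 2 ≤ (E + ‖G z‖) ^ 2 := by gcongr
      have h5 : (E + ‖G z‖) ^ 2 = 2 * E ^ 2 + 2 * ‖G z‖ ^ 2 - (E - ‖G z‖) ^ 2 := by ring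
      have h6 := sq_nonneg (E - ‖G z‖)
      rw [h5] at h4
      linarith only [h4, h6]
  refine h1.trans ?_
  rw [intervalIntegral.integral_add intervalIntegrable_const
    ((hGint.const_mul 2).intervalIntegrable),
    intervalIntegral.integral_const, intervalIntegral.integral_const_mul, smul_eq_mul]
  have h2 : ∫ z in Z..(Z + 1), ‖G z‖ ^ 2 ≤ ∫ z, ‖G z‖ ^ 2 := by
    rw [intervalIntegral.integral_of_le (by linarith)]
    exact setIntegral_le_integral hGint (Eventually.of_forall fun z => by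
      simp only [Pi.zero_apply]; positivity)
  have e : (Z + 1 - Z) * (2 * E ^ 2) = 2 * E ^ 2 := by ring
  rw [e]
  linarith

/-- for the principal character mod 1 the function `ggC` is the function `gg` -/
lemma ggC_one {f : ℕ} (hf : f = 1) (χ : DirichletCharacter ℂ f) (h x : ℝ) (w N : ℕ) :
    ggC h (Finset.Ioc 0 N) (fun l : ℕ => χ l * ((aw w l / l : ℝ) : ℂ)) x =
      ((gg h (Finset.Ioc 0 N) (fun l => aw w l / l) x : ℝ) : ℂ) := by
  subst hf
  unfold ggC gg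
  rw [Complex.ofReal_sum]
  apply Finset.sum_congr rfl
  intro l _
  have h1 : χ (l : ZMod 1) = 1 := by
    rw [Subsingleton.elim (l : ZMod 1) 1, map_one]
  simp only [h1, one_mul]
  unfold triC
  rw [← Complex.ofReal_mul]

/-- the first part of the error -/
lemma err_one {Z lam h : ℝ} {w : ℕ} (hh : h = Real.exp (-lam))
    (hw3 : (w : ℝ) ≤ 2 * Real.exp (3 * lam)) :
    9 * √(w : ℝ) * Real.exp (-(Z / 2)) / h ≤ 14 * Real.exp (5 / 2 * lam - Z / 2) := by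
  have h1 : √(w : ℝ) ≤ 3 / 2 * Real.exp (3 / 2 * lam) := by
    rw [Real.sqrt_le_left (by positivity)]
    have e : (3 / 2 * Real.exp (3 / 2 * lam)) ^ 2 = 9 / 4 * Real.exp (3 * lam) := by
      rw [mul_pow, ← Real.exp_nat_mul]
      norm_num
      ring_nf
    rw [e]
    have := Real.exp_pos (3 * lam)
    linarith
  have e1 : 9 * √(w : ℝ) * Real.exp (-(Z / 2)) / h =
      9 * √(w : ℝ) * (Real.exp (-(Z / 2)) * Real.exp lam) := by
    rw [hh, div_eq_mul_inv, ← Real.exp_neg, neg_neg]; ring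
  rw [e1]
  calc 9 * √(w : ℝ) * (Real.exp (-(Z / 2)) * Real.exp lam) ≤
      9 * (3 / 2 * Real.exp (3 / 2 * lam)) * (Real.exp (-(Z / 2)) * Real.exp lam) := by gcongr
    _ = 27 / 2 * Real.exp (5 / 2 * lam - Z / 2) := by
        have : Real.exp (5 / 2 * lam - Z / 2) =
            Real.exp (3 / 2 * lam) * (Real.exp (-(Z / 2)) * Real.exp lam) := by
          rw [← Real.exp_add, ← Real.exp_add]; congr 1; ring
        rw [this]; ring
    _ ≤ _ := by
        have := Real.exp_pos (5 / 2 * lam - Z / 2)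
        linarith

/-- the smoothed sum of the second factor -/
lemma small_bound {f : ℕ} [NeZero f] (χ : DirichletCharacter ℂ f) (hχ1 : χ ≠ 1 ∨ f = 1)
    {lam h F X x Z : ℝ} {w N' u0 : ℕ} (hh : h = Real.exp (-lam)) (hh0 : 0 < h) (hh1 : h ≤ 1)
    (hF : 1 ≤ F) (hfF : (f : ℝ) ≤ F) (hwn : 1 ≤ w) (hw2 : (w : ℝ) ≤ 2 * (F ^ 2 * Real.exp lam))
    (hX : X = Real.exp (3 * lam + u0 - Z)) (hxw : Real.log w + 2 ≤ x)
    (hxN : Real.exp (x + h) ≤ N') (hx1 : Z - u0 ≤ x) :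
    ‖ggC h (Finset.Ioc 0 N') (fun l : ℕ => χ l * ((aw w l / l : ℝ) : ℂ)) x‖ ≤
      96 * F ^ 3 * X + if f = 1 then |mz w| else 0 := by
  have hX0 : 0 < X := by rw [hX]; exact Real.exp_pos _
  have hF0 : 0 < F := by linarith
  have hex : Real.exp (-x) / h ^ 2 ≤ Real.exp (u0 - Z) * Real.exp (2 * lam) := by
    have e1 : Real.exp (-x) / h ^ 2 = Real.exp (-x) * Real.exp (2 * lam) := by
      rw [hh, ← Real.exp_nat_mul, div_eq_mul_inv, ← Real.exp_neg]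
      congr 2
      push_cast
      ring
    rw [e1]
    have : Real.exp (-x) ≤ Real.exp (u0 - Z) := Real.exp_le_exp.2 (by linarith)
    gcongr
  have eX : Real.exp lam * (Real.exp (u0 - Z) * Real.exp (2 * lam)) = X := by
    rw [hX, ← Real.exp_add, ← Real.exp_add]; congr 1; ring
  have hwX : (w : ℝ) * (Real.exp (-x) / h ^ 2) ≤ 2 * F ^ 2 * X := by
    calc (w : ℝ) * (Real.exp (-x) / h ^ 2) ≤
        (2 * (F ^ 2 * Real.exp lam)) * (Real.exp (u0 - Z) * Real.exp (2 * lam)) := by gcongr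
      _ = 2 * F ^ 2 * X := by rw [← eX]; ring
  have hF23 : F ^ 2 ≤ F ^ 3 := pow_le_pow_right₀ hF (by norm_num)
  split_ifs with hf1
  · rw [ggC_one hf1, Complex.norm_real, Real.norm_eq_abs]
    refine (gg_small hh0 hh1 w N' hwn hxw hxN).trans ?_
    have e1 : (w : ℝ) * (32 * Real.exp (-x) / h ^ 2) =
        32 * (w * (Real.exp (-x) / h ^ 2)) := by ring
    rw [e1]
    have h3 : F ^ 2 * X ≤ F ^ 3 * X := mul_le_mul_of_nonneg_right hF23 hX0.le
    have h4 : 0 ≤ F ^ 3 * X := by positivity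
    linarith
  · have hχ2 : χ ≠ 1 := by
      rcases hχ1 with h1 | h1
      · exact h1
      · exact absurd h1 hf1
    refine (ggC_small hχ2 hh0 hh1 w N' hwn hxw hxN).trans ?_
    rw [add_zero]
    calc (w : ℝ) * (f * (48 * 1 * (Real.exp (-x) / h ^ 2))) =
        48 * f * (w * (Real.exp (-x) / h ^ 2)) := by ring
      _ ≤ 48 * F * (2 * F ^ 2 * X) := by gcongr
      _ = 96 * F ^ 3 * X := by ring

/-- the large sieve -/
lemma ls_bound {CL : ℝ} (hCL : 0 < CL) {F : ℕ} {Z lam h : ℝ} {w N' : ℕ} (hZ20 : 20 ≤ Z)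
    (hL : ∀ (F : ℕ) (h : ℝ) (L : Finset ℕ) (c : ℕ → ℂ), 0 < h → h ≤ 1 → (∀ l ∈ L, 0 < l) →
      (∀ l ∈ L, c l ≠ 0 → (F : ℝ) ^ 2 ≤ h * l) →
      ∑ f ∈ Finset.Icc 1 F, ((f : ℝ) / Nat.totient f) * ∑ χ ∈ prim f,
        ∫ x, ‖bbC h L (fun l => χ l * c l) x‖ ^ 2 ≤ CL * ∑ l ∈ L, l * ‖c l‖ ^ 2)
    (hh : h = Real.exp (-lam)) (hh0 : 0 < h) (hh1 : h ≤ 1)
    (hw1 : (F : ℝ) ^ 2 * Real.exp lam ≤ w) (hN'n : 1 ≤ N') (hN'2 : Real.log N' ≤ Z + 5) :
    ∑ f ∈ Finset.Icc 1 F, ((f : ℝ) / Nat.totient f) * ∑ χ ∈ prim f,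
      ∫ x, ‖bbC h (Finset.Ioc 0 N') (fun l : ℕ => χ l * ((aw w l / l : ℝ) : ℂ)) x‖ ^ 2 ≤
      CL * (2 * Z) ^ 4 := by
  have h1 := hL F h (Finset.Ioc 0 N') (fun l : ℕ => ((aw w l / l : ℝ) : ℂ)) hh0 hh1
    (fun l hl => (Finset.mem_Ioc.1 hl).1) (by
      intro l hl hne
      have hl0 := (Finset.mem_Ioc.1 hl).1
      have hlw : w < l := by
        by_contra hc
        apply hne
        rw [aw_zero_of hl0 (not_lt.1 hc), zero_div, Complex.ofReal_zero]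
      have h4 : (F : ℝ) ^ 2 * Real.exp lam ≤ l := hw1.trans (by exact_mod_cast hlw.le)
      have h5 : h * ((F : ℝ) ^ 2 * Real.exp lam) = (F : ℝ) ^ 2 := by
        rw [hh]
        have : Real.exp (-lam) * Real.exp lam = 1 := by rw [← Real.exp_add]; simp
        linear_combination (F : ℝ) ^ 2 * this
      rw [← h5]
      exact mul_le_mul_of_nonneg_left h4 hh0.le)
  refine h1.trans ?_
  apply mul_le_mul_of_nonneg_left _ hCL.le
  have h3 : ∑ l ∈ Finset.Ioc 0 N', (l : ℝ) * ‖((aw w l / l : ℝ) : ℂ)‖ ^ 2 =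
      ∑ l ∈ Finset.Ioc 0 N', (l : ℝ) * (aw w l / l) ^ 2 := by
    apply Finset.sum_congr rfl
    intro l _
    rw [Complex.norm_real, Real.norm_eq_abs, sq_abs]
  rw [h3]
  refine (aw_sum w N' hN'n).trans ?_
  have h5 : 0 ≤ Real.log N' := Real.log_nonneg (by exact_mod_cast hN'n)
  have h6 : 1 + Real.log N' ≤ 2 * Z := by linarith
  exact pow_le_pow_left₀ (by linarith) h6 4

/-- summation over the characters -/
lemma sum_bound {F : ℕ} (hF : 1 ≤ F) {E m P : ℝ}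
    (I J : (f : ℕ) → DirichletCharacter ℂ f → ℝ)
    (hone : ∀ f ∈ Finset.Icc 1 F, ∀ χ ∈ prim f, I f χ ≤
      2 * (E + if f = 1 then m else 0) ^ 2 + P * J f χ) :
    ∑ f ∈ Finset.Icc 1 F, ((f : ℝ) / Nat.totient f) * ∑ χ ∈ prim f, I f χ ≤
      4 * (E * F) ^ 2 + 4 * m ^ 2 +
      P * ∑ f ∈ Finset.Icc 1 F, ((f : ℝ) / Nat.totient f) * ∑ χ ∈ prim f, J f χ := by
  have hsum1 : ∑ f ∈ Finset.Icc 1 F, ((f : ℝ) / Nat.totient f) * ∑ χ ∈ prim f, I f χ ≤
      ∑ f ∈ Finset.Icc 1 F, (4 * E ^ 2 * (((f : ℝ) / Nat.totient f) * ((prim f).card : ℝ)) +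
        (if f = 1 then 4 * m ^ 2 else 0) +
        P * (((f : ℝ) / Nat.totient f) * ∑ χ ∈ prim f, J f χ)) := by
    apply Finset.sum_le_sum
    intro f hf
    have h1 : ∑ χ ∈ prim f, I f χ ≤
        ((prim f).card : ℝ) * (4 * E ^ 2 + if f = 1 then 4 * m ^ 2 else 0) +
        P * ∑ χ ∈ prim f, J f χ := by
      rw [← nsmul_eq_mul, ← Finset.sum_const, Finset.mul_sum, ← Finset.sum_add_distrib]
      apply Finset.sum_le_sum
      intro χ hχ
      refine (hone f hf χ hχ).trans ?_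
      have h2 : 2 * (E + if f = 1 then m else 0) ^ 2 ≤
          4 * E ^ 2 + if f = 1 then 4 * m ^ 2 else 0 := by
        split_ifs with hf1
        · have := sq_nonneg (E - m)
          linarith
        · have := sq_nonneg E
          rw [add_zero, add_zero]
          linarith
      linarith
    have h3 : ((f : ℝ) / Nat.totient f) * (((prim f).card : ℝ) *
        (if f = 1 then 4 * m ^ 2 else 0)) ≤
        if f = 1 then 4 * m ^ 2 else 0 := by
      split_ifs with hf1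
      · have h4 := weight_one hf
        rw [hf1] at h4 ⊢
        rw [← mul_assoc]
        have h5 : 0 ≤ 4 * m ^ 2 := by positivity
        calc _ ≤ ((1 : ℕ) : ℝ) * (4 * m ^ 2) := mul_le_mul_of_nonneg_right h4 h5
          _ = _ := by simp
      · simp
    calc ((f : ℝ) / Nat.totient f) * ∑ χ ∈ prim f, I f χ ≤
        ((f : ℝ) / Nat.totient f) * (((prim f).card : ℝ) *
          (4 * E ^ 2 + if f = 1 then 4 * m ^ 2 else 0) + P * ∑ χ ∈ prim f, J f χ) :=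
          mul_le_mul_of_nonneg_left h1 (by positivity)
      _ = 4 * E ^ 2 * (((f : ℝ) / Nat.totient f) * ((prim f).card : ℝ)) +
        ((f : ℝ) / Nat.totient f) * (((prim f).card : ℝ) *
          (if f = 1 then 4 * m ^ 2 else 0)) +
        P * (((f : ℝ) / Nat.totient f) * ∑ χ ∈ prim f, J f χ) := by
          ring
      _ ≤ _ := by linarith
  refine hsum1.trans ?_
  rw [Finset.sum_add_distrib, Finset.sum_add_distrib, ← Finset.mul_sum, ← Finset.mul_sum,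
    Finset.sum_ite_eq']
  rw [if_pos (Finset.mem_Icc.mpr ⟨le_refl _, hF⟩)]
  have h6 : 4 * E ^ 2 * ∑ f ∈ Finset.Icc 1 F, ((f : ℝ) / Nat.totient f) * ((prim f).card : ℝ) ≤
      4 * E ^ 2 * (F : ℝ) ^ 2 := mul_le_mul_of_nonneg_left (weight_sum F) (by positivity)
  have e : 4 * (E * F) ^ 2 = 4 * E ^ 2 * (F : ℝ) ^ 2 := by ring
  rw [e]
  linarith

/-- the total error -/
lemma err_bound {F : ℕ} {Z lam X E : ℝ} {u0 D : ℕ} (hZ20 : 20 ≤ Z) (hFe : (F : ℝ) ≤ Real.exp lam)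
    (hlam56 : 56 * lam ≤ Z) (hu0b : (u0 : ℝ) ≤ Z / 4 + 1)
    (hX : X = Real.exp (3 * lam + u0 - Z))
    (hE : E = 14 * Real.exp (5 / 2 * lam - Z / 2) + 96 * (F : ℝ) ^ 3 * Z * X)
    (hE2 : 302 * (Z ^ D * Real.exp (-(Z / 4))) ≤ 1) : E * F ≤ Z / Z ^ D := by
  have hX0 : 0 < X := by rw [hX]; exact Real.exp_pos _
  have hF0 : (0 : ℝ) ≤ F := Nat.cast_nonneg _
  have hFE : F * Real.exp (5 / 2 * lam - Z / 2) ≤ Real.exp (-(Z / 4)) := by
    calc F * Real.exp (5 / 2 * lam - Z / 2) ≤ Real.exp lam * Real.exp (5 / 2 * lam - Z / 2) := by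
          gcongr
      _ = Real.exp (7 / 2 * lam - Z / 2) := by rw [← Real.exp_add]; congr 1; ring
      _ ≤ _ := Real.exp_le_exp.2 (by linarith)
  have hFX : (F : ℝ) ^ 4 * X ≤ 3 * Real.exp (-(Z / 4)) := by
    calc (F : ℝ) ^ 4 * X ≤ Real.exp lam ^ 4 * X := by gcongr
      _ = Real.exp (7 * lam + u0 - Z) := by
          rw [hX, ← Real.exp_nat_mul, ← Real.exp_add]; congr 1; push_cast; ring
      _ ≤ Real.exp (1 + -(Z / 4)) := Real.exp_le_exp.2 (by linarith)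
      _ = Real.exp 1 * Real.exp (-(Z / 4)) := Real.exp_add _ _
      _ ≤ 3 * Real.exp (-(Z / 4)) := by
          have := Real.exp_one_lt_d9
          gcongr
          linarith
  have hexp0 : 0 < Real.exp (-(Z / 4)) := Real.exp_pos _
  have h1 : E * F ≤ 302 * Z * Real.exp (-(Z / 4)) := by
    calc E * F = 14 * (F * Real.exp (5 / 2 * lam - Z / 2)) + 96 * Z * ((F : ℝ) ^ 4 * X) := by
          rw [hE]; ring
      _ ≤ 14 * Real.exp (-(Z / 4)) + 96 * Z * (3 * Real.exp (-(Z / 4))) := by gcongr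
      _ = (14 + 288 * Z) * Real.exp (-(Z / 4)) := by ring
      _ ≤ 302 * Z * Real.exp (-(Z / 4)) := by
          apply mul_le_mul_of_nonneg_right _ hexp0.le
          linarith
  refine h1.trans ?_
  rw [le_div_iff₀ (by positivity)]
  calc 302 * Z * Real.exp (-(Z / 4)) * Z ^ D = Z * (302 * (Z ^ D * Real.exp (-(Z / 4)))) := by ring
    _ ≤ Z * 1 := by gcongr
    _ = Z := mul_one Z

/-- the final inequality -/
lemma final_bound {Z K CL Cz K3 EF m S : ℝ} {A D : ℕ} (hD : D = A + 6) (hZ20 : 20 ≤ Z)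
    (hK3 : K3 = 4 + 4 * Cz ^ 2 + 128 * K ^ 2 * CL) (hZK : K3 ≤ Z)
    (hEF0 : 0 ≤ EF) (hEF : EF ≤ Z / Z ^ D) (hm0 : 0 ≤ m) (hm : m ≤ Z * (Cz / Z ^ D))
    (hS : S ≤ CL * (2 * Z) ^ 4) :
    4 * EF ^ 2 + 4 * m ^ 2 + 2 * ((2 * Z) ^ 2 * (K / Z ^ D) ^ 2) * S ≤ 1 / Z ^ A := by
  have hZ0 : 0 < Z := by linarith
  have hZD0 : 0 < Z ^ D := by positivity
  have b1 : 4 * EF ^ 2 ≤ 4 * (Z ^ 6 / (Z ^ D) ^ 2) := by
    have h1 : EF ^ 2 ≤ (Z / Z ^ D) ^ 2 := pow_le_pow_left₀ hEF0 hEF 2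
    have h2 : (Z / Z ^ D) ^ 2 ≤ Z ^ 6 / (Z ^ D) ^ 2 := by
      rw [div_pow]
      have : Z ^ 2 ≤ Z ^ 6 := pow_le_pow_right₀ (by linarith) (by norm_num)
      gcongr
    linarith
  have b2 : 4 * m ^ 2 ≤ 4 * Cz ^ 2 * (Z ^ 6 / (Z ^ D) ^ 2) := by
    have h1 : m ^ 2 ≤ (Z * (Cz / Z ^ D)) ^ 2 := pow_le_pow_left₀ hm0 hm 2
    have h2 : (Z * (Cz / Z ^ D)) ^ 2 ≤ Cz ^ 2 * (Z ^ 6 / (Z ^ D) ^ 2) := by
      have e : (Z * (Cz / Z ^ D)) ^ 2 = Cz ^ 2 * (Z ^ 2 / (Z ^ D) ^ 2) := by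
        rw [mul_pow, div_pow]; ring
      rw [e]
      have : Z ^ 2 ≤ Z ^ 6 := pow_le_pow_right₀ (by linarith) (by norm_num)
      gcongr
    linarith
  have b3 : 2 * ((2 * Z) ^ 2 * (K / Z ^ D) ^ 2) * S ≤
      128 * K ^ 2 * CL * (Z ^ 6 / (Z ^ D) ^ 2) := by
    calc 2 * ((2 * Z) ^ 2 * (K / Z ^ D) ^ 2) * S ≤
        2 * ((2 * Z) ^ 2 * (K / Z ^ D) ^ 2) * (CL * (2 * Z) ^ 4) :=
          mul_le_mul_of_nonneg_left hS (by positivity)
      _ = _ := by
          rw [div_pow]; ring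
  have h4 : Z ^ 6 / (Z ^ D) ^ 2 * K3 ≤ 1 / Z ^ A := by
    calc Z ^ 6 / (Z ^ D) ^ 2 * K3 ≤ Z ^ 6 / (Z ^ D) ^ 2 * Z := by gcongr
      _ = Z ^ 7 / Z ^ (2 * A + 12) := by
          rw [← pow_mul, hD]
          rw [show (A + 6) * 2 = 2 * A + 12 by ring]
          ring
      _ ≤ 1 / Z ^ A := by
          rw [div_le_div_iff₀ (by positivity) (by positivity), one_mul, ← pow_add]
          exact pow_le_pow_right₀ (by linarith) (by omega)
  rw [hK3] at h4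
  linarith

theorem t_HYBL : S_HYBL := by
  intro hMBL hLSB hKTL hDSP A
  obtain ⟨D, hD⟩ : ∃ D, D = A + 6 := ⟨_, rfl⟩
  obtain ⟨K, hK, hM⟩ := hMBL D
  obtain ⟨CL, hCL, hL⟩ := hLSB
  obtain ⟨Cz, hCz, hmz⟩ := m0_bound (2 * D)
  -- the constants
  obtain ⟨K3, hK3⟩ : ∃ K3 : ℝ, K3 = 4 + 4 * Cz ^ 2 + 128 * K ^ 2 * CL := ⟨_, rfl⟩
  have hlim1 : ∀ᶠ Z : ℝ in atTop, 11 * (Z ^ (D + 90) * Real.exp (-√Z)) ≤ 1 := by
    have h1 := (Real.tendsto_pow_mul_exp_neg_atTop_nhds_zero (2 * (D + 90))).comp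
      Real.tendsto_sqrt_atTop
    have h2 : ∀ᶠ Z : ℝ in atTop, (√Z) ^ (2 * (D + 90)) * Real.exp (-√Z) < 1 / 11 :=
      h1.eventually_lt_const (by norm_num)
    filter_upwards [h2, eventually_ge_atTop 0] with Z h3 h4
    rw [pow_mul, Real.sq_sqrt h4] at h3
    linarith
  have hlim2 : ∀ᶠ Z : ℝ in atTop, 302 * (Z ^ D * Real.exp (-(Z / 4))) ≤ 1 := by
    have h0 : Tendsto (fun Z : ℝ => Z / 4) atTop atTop := tendsto_id.atTop_div_const (by norm_num)
    have h1 := (Real.tendsto_pow_mul_exp_neg_atTop_nhds_zero D).comp h0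
    have h2 : ∀ᶠ Z : ℝ in atTop, (Z / 4) ^ D * Real.exp (-(Z / 4)) < 1 / (302 * 4 ^ D) :=
      h1.eventually_lt_const (by positivity)
    filter_upwards [h2] with Z h3
    rw [div_pow, lt_div_iff₀ (by positivity)] at h3
    have : Z ^ D / 4 ^ D * Real.exp (-(Z / 4)) * (302 * 4 ^ D) =
      302 * (Z ^ D * Real.exp (-(Z / 4))) := by field_simp
    linarith
  obtain ⟨Z1, hZ1⟩ := (hlim1.and hlim2).exists_forall_of_atTop
  refine ⟨16 * (D + 90) + 56, max (max Z1 K3) 20, by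
    have : (0 : ℝ) ≤ D := Nat.cast_nonneg _
    linarith, by
    refine le_trans ?_ (le_max_right _ _); norm_num,
    fun F Z lam h ω T hZ hlam1 hlam2 hF hFlam hh hω hω4 hωlam hωZ hT hZF N hN => ?_⟩
  have hD0 : (0 : ℝ) ≤ D := Nat.cast_nonneg _
  have hFr : (1 : ℝ) ≤ F := by exact_mod_cast hF
  have hF0 : (0 : ℝ) < F := by linarith
  have hFe : (F : ℝ) ≤ Real.exp lam := by
    rw [← Real.log_le_iff_le_exp hF0]; exact hFlam
  have hZ20 : 20 ≤ Z := (le_max_right _ _).trans hZ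
  have hZK : K3 ≤ Z := ((le_max_right _ _).trans (le_max_left _ _)).trans hZ
  obtain ⟨hE1, hE2⟩ := hZ1 Z (((le_max_left _ _).trans (le_max_left _ _)).trans hZ)
  have hZ0 : 0 < Z := by linarith
  have hZD0 : 0 < Z ^ D := by positivity
  have hh0 : 0 < h := by rw [hh]; exact Real.exp_pos _
  have hsq1 : 1 ≤ √Z := by rw [Real.one_le_sqrt]; linarith
  have hlam0 : 1 ≤ lam := hsq1.trans hlam1
  have hh1 : h ≤ 1 := by rw [hh]; exact Real.exp_le_one_iff.2 (by linarith)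
  have hlogZ : 1 ≤ Real.log Z := by
    rw [Real.le_log_iff_exp_le hZ0]
    linarith [Real.exp_one_lt_d9]
  have hlam56 : 56 * lam ≤ Z := by
    refine le_trans ?_ hlam2
    apply mul_le_mul_of_nonneg_right _ (by linarith)
    linarith
  have hωZ1 : 1 ≤ ω * Z := by
    refine le_trans ?_ hωZ
    nlinarith
  -- parameters
  obtain ⟨w, hw⟩ : ∃ w, w = ⌈(F : ℝ) ^ 2 * Real.exp lam⌉₊ := ⟨_, rfl⟩
  have hw1 : (F : ℝ) ^ 2 * Real.exp lam ≤ w := by rw [hw]; exact Nat.le_ceil _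
  have hFe1 : 1 ≤ (F : ℝ) ^ 2 * Real.exp lam :=
    one_le_mul_of_one_le_of_one_le (one_le_pow₀ hFr) (Real.one_le_exp (by linarith))
  have hw2 : (w : ℝ) ≤ 2 * ((F : ℝ) ^ 2 * Real.exp lam) := by
    have h1 : (w : ℝ) < (F : ℝ) ^ 2 * Real.exp lam + 1 := by
      rw [hw]; exact Nat.ceil_lt_add_one (by positivity)
    linarith
  have hw0 : (0 : ℝ) < w := by linarith
  have hwn : 1 ≤ w := by exact_mod_cast hw0
  have hwe : Real.exp lam ≤ w := by
    refine le_trans ?_ hw1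
    have h1 : (1 : ℝ) ≤ (F : ℝ) ^ 2 := one_le_pow₀ hFr
    have h2 := Real.exp_pos lam
    nlinarith
  have hwn2 : 2 ≤ w := by
    have h2 : (2 : ℝ) ≤ w := by
      refine le_trans ?_ hwe
      have := Real.add_one_le_exp lam
      linarith
    exact_mod_cast h2
  have hlw1 : lam ≤ Real.log w := by rw [Real.le_log_iff_exp_le hw0]; exact hwe
  have e3lam : Real.exp (3 * lam) = Real.exp lam ^ 2 * Real.exp lam := by
    rw [← Real.exp_nat_mul, ← Real.exp_add]; congr 1; push_cast; ring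
  have hw3 : (w : ℝ) ≤ 2 * Real.exp (3 * lam) := by
    rw [e3lam]
    refine hw2.trans ?_
    gcongr
  have hlw2 : Real.log w ≤ 3 * lam + 1 := by
    rw [Real.log_le_iff_le_exp hw0, Real.exp_add]
    have e2 : (2 : ℝ) ≤ Real.exp 1 := by linarith [Real.exp_one_gt_d9]
    calc (w : ℝ) ≤ 2 * Real.exp (3 * lam) := hw3
      _ = Real.exp (3 * lam) * 2 := by ring
      _ ≤ _ := by gcongr
  obtain ⟨u0, hu0⟩ : ∃ u0, u0 = ⌈4 * (D + 90) * Real.log Z / ω⌉₊ := ⟨_, rfl⟩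
  have hu0a : 4 * (D + 90) * Real.log Z / ω ≤ u0 := by rw [hu0]; exact Nat.le_ceil _
  have hu0pos : 0 < 4 * (D + 90) * Real.log Z / ω := by positivity
  have hu0b : (u0 : ℝ) ≤ Z / 4 + 1 := by
    have h1 : (u0 : ℝ) < 4 * (D + 90) * Real.log Z / ω + 1 := by
      rw [hu0]; exact Nat.ceil_lt_add_one hu0pos.le
    have h2 : 4 * (D + 90) * Real.log Z / ω ≤ Z / 4 := by
      rw [div_le_iff₀ hω]
      have h3 : 16 * ((D : ℝ) + 90) * Real.log Z ≤ ω * Z := by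
        refine le_trans ?_ hωZ
        apply mul_le_mul_of_nonneg_right _ (by linarith)
        linarith
      linarith
    linarith
  have hu01 : 1 ≤ u0 := by rw [hu0]; exact Nat.ceil_pos.2 hu0pos
  obtain ⟨U, hU⟩ : ∃ U, U = ⌈Z + 2⌉₊ := ⟨_, rfl⟩
  have hU1 : Z + 2 ≤ U := by rw [hU]; exact Nat.le_ceil _
  have hU2 : (U : ℝ) ≤ Z + 3 := by
    have := Nat.ceil_lt_add_one (show 0 ≤ Z + 2 by linarith)
    rw [← hU] at this
    linarith
  have hu0U : u0 ≤ U := by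
    have : (u0 : ℝ) ≤ U := by linarith
    exact_mod_cast this
  obtain ⟨N', hN'⟩ : ∃ N', N' = ⌈Real.exp ((U : ℝ) + 1)⌉₊ := ⟨_, rfl⟩
  have hN'1 : Real.exp ((U : ℝ) + 1) ≤ N' := by rw [hN']; exact Nat.le_ceil _
  have hN'0 : (0 : ℝ) < N' := lt_of_lt_of_le (Real.exp_pos _) hN'1
  have hN'n : 1 ≤ N' := by exact_mod_cast hN'0
  have hN'2 : Real.log N' ≤ Z + 5 := by
    rw [Real.log_le_iff_le_exp hN'0]
    have h1 : (N' : ℝ) < Real.exp ((U : ℝ) + 1) + 1 := by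
      rw [hN']; exact Nat.ceil_lt_add_one (Real.exp_pos _).le
    have h2 : Real.exp ((U : ℝ) + 1) ≤ Real.exp (Z + 4) := Real.exp_le_exp.2 (by linarith)
    have h3 : Real.exp (Z + 5) = Real.exp (Z + 4) * Real.exp 1 := by
      rw [← Real.exp_add]; congr 1; ring
    have h4 : 1 ≤ Real.exp (Z + 4) := Real.one_le_exp (by linarith)
    have h5 : (2 : ℝ) ≤ Real.exp 1 := by linarith [Real.exp_one_gt_d9]
    have h6 := mul_le_mul_of_nonneg_left h5 (Real.exp_pos (Z + 4)).le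
    rw [h3]
    linarith
  have hlw : Real.log w + u0 + 3 ≤ Z := by linarith
  obtain ⟨M, hMdef⟩ : ∃ M : ℝ, M = K / Z ^ D := ⟨_, rfl⟩
  have hM0 : 0 ≤ M := by rw [hMdef]; positivity
  obtain ⟨X, hX⟩ : ∃ X : ℝ, X = Real.exp (3 * lam + u0 - Z) := ⟨_, rfl⟩
  obtain ⟨E, hE⟩ : ∃ E : ℝ, E = 14 * Real.exp (5 / 2 * lam - Z / 2) + 96 * (F : ℝ) ^ 3 * Z * X :=
    ⟨_, rfl⟩
  have hX0 : 0 < X := by rw [hX]; exact Real.exp_pos _
  have hE0 : 0 ≤ E := by rw [hE]; positivity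
  have hu01r : (1 : ℝ) ≤ u0 := by exact_mod_cast hu01
  have hu0Z : 1 + (u0 : ℝ) ≤ Z := by linarith
  have hT1 := err_one (Z := Z) hh hw3
  -- the bound for every character
  have hone : ∀ f ∈ Finset.Icc 1 F, ∀ χ ∈ prim f, ∫ z in Z..(Z + 1), ‖TG (xl χ) h N z‖ ^ 2 ≤
      2 * (E + if f = 1 then Z * |mz w| else 0) ^ 2 +
      2 * ((2 * Z) ^ 2 * (M ^ 2 * ∫ x, ‖bbC h (Finset.Ioc 0 N')
        (fun l : ℕ => χ l * ((aw w l / l : ℝ) : ℂ)) x‖ ^ 2)) := by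
    intro f hf χ hχ
    rw [Finset.mem_Icc] at hf
    have : NeZero f := ⟨by omega⟩
    rw [mem_prim] at hχ
    have hfF : (f : ℝ) ≤ F := by exact_mod_cast hf.2
    have hf0 : (0 : ℝ) < f := by exact_mod_cast (by omega : 0 < f)
    have hχ1 : χ ≠ 1 ∨ f = 1 := by
      rcases eq_or_lt_of_le hf.1 with h1 | h1
      · exact Or.inr h1.symm
      · exact Or.inl (prim_ne_one h1 hχ)
    refine one_char hDSP (xl χ) (fun l : ℕ => χ l * ((aw w l / l : ℝ) : ℂ)) (u0 := u0) (U := U)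
      hZ20 hh0 hh1 hU1 hU2 hu01 hN'1 hN hM0 ?_ ?_
    · intro u hu1 hu2 ξ
      rw [hMdef]
      have hu1r : (u0 : ℝ) ≤ u := by exact_mod_cast hu1
      have hu2r : (u : ℝ) ≤ U := by exact_mod_cast hu2
      have hu3 : (1 : ℝ) ≤ u := by exact_mod_cast hu01.trans hu1
      refine hM f χ hχ1 Z lam h ω T u hZ20 hE1 hlam1 (by linarith)
        ((Real.log_le_log hf0 hfF).trans hFlam) hh hω hω4 hωlam hωZ1 hT (hZF f hf.2 χ hχ) hu3 ?_
        (by linarith) ξ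
      have h1 := hu0a.trans hu1r
      rw [div_le_iff₀ hω] at h1
      linarith
    · intro z hz1 hz2
      have hsmall : ∀ x : ℝ, Z - u0 ≤ x → x ≤ z →
          ‖ggC h (Finset.Ioc 0 N') (fun l : ℕ => χ l * ((aw w l / l : ℝ) : ℂ)) x‖ ≤
          96 * (F : ℝ) ^ 3 * X + if f = 1 then |mz w| else 0 := by
        intro x hx1 hx2
        exact small_bound χ hχ1 hh hh0 hh1 hFr hfF hwn hw2 hX (by linarith)
          (le_trans (Real.exp_le_exp.2 (by linarith)) hN'1) hx1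
      have h1 := hKTL f χ h z Z _ w N' u0 U hh0 hh1 hwn hz1 hz2 hu01 hu0U hU1 hN'1 hlw hsmall
      refine h1.trans ?_
      have h2 : (1 + (u0 : ℝ)) * (96 * (F : ℝ) ^ 3 * X + if f = 1 then |mz w| else 0) ≤
          Z * (96 * (F : ℝ) ^ 3 * X + if f = 1 then |mz w| else 0) := by
        apply mul_le_mul_of_nonneg_right hu0Z
        have : (0 : ℝ) ≤ if f = 1 then |mz w| else 0 := by split_ifs <;> positivity
        positivity
      have h3 : Z * (96 * (F : ℝ) ^ 3 * X + if f = 1 then |mz w| else 0) =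
          96 * (F : ℝ) ^ 3 * Z * X + if f = 1 then Z * |mz w| else 0 := by
        split_ifs <;> ring
      rw [hE]
      linarith
  -- the large sieve
  have hls := ls_bound hCL hZ20 hL hh hh0 hh1 hw1 hN'n hN'2
  have hsum := sum_bound hF (E := E) (m := Z * |mz w|) (P := 2 * ((2 * Z) ^ 2 * M ^ 2))
    (fun f χ => ∫ z in Z..(Z + 1), ‖TG (xl χ) h N z‖ ^ 2)
    (fun f χ => ∫ x, ‖bbC h (Finset.Ioc 0 N')
      (fun l : ℕ => χ l * ((aw w l / l : ℝ) : ℂ)) x‖ ^ 2) (by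
      intro f hf χ hχ
      refine (hone f hf χ hχ).trans (le_of_eq ?_)
      ring)
  refine hsum.trans ?_
  have hEF := err_bound hZ20 hFe hlam56 hu0b hX hE hE2
  have hmzw : Z * |mz w| ≤ Z * (Cz / Z ^ D) := by
    apply mul_le_mul_of_nonneg_left _ hZ0.le
    refine (hmz w hwn2).trans ?_
    have hpowD : Z ^ D ≤ Real.log w ^ (2 * D) := by
      rw [pow_mul]
      have h1 : Z ≤ Real.log w ^ 2 := by
        have h2 : √Z ≤ Real.log w := hlam1.trans hlw1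
        calc Z = √Z ^ 2 := (Real.sq_sqrt hZ0.le).symm
          _ ≤ _ := pow_le_pow_left₀ (Real.sqrt_nonneg _) h2 2
      exact pow_le_pow_left₀ hZ0.le h1 D
    exact div_le_div_of_nonneg_left hCz.le hZD0 hpowD
  rw [hMdef]
  exact final_bound hD hZ20 hK3 hZK (mul_nonneg hE0 hF0.le) hEF
    (mul_nonneg hZ0.le (abs_nonneg _)) hmzw hls

end Pool.Agent.Q238.HC
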